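import Pool.Agent.H574R3.CS.Tasks

set_option autoImplicit false

namespace Pool.Agent.H757.CS

open Pool.Agent.H574R3.CS

theorem taskC : TaskC := by
  intro K _ _ hK a b c d h1 h2 h3 l1 l2 k haniso
  have h30 : (3 : K) = 0 := by
    have h := FiniteField.cast_card_eq_zero K
    rw [hK] at h
    exact_mod_cast h
  have hpow : ∀ x : K, x ^ 3 = x := by
    intro x
    have h := FiniteField.pow_card x
    rwa [hK] at h
  have hall : ∀ x : K, x = 0 ∨ x = 1 ∨ x = -1 := by
    intro x
    have h := hpow x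
    have h' : x * ((x - 1) * (x + 1)) = 0 := by linear_combination h
    rcases mul_eq_zero.mp h' with h0 | h0
    · exact Or.inl h0
    · rcases mul_eq_zero.mp h0 with h1' | h1'
      · exact Or.inr (Or.inl (sub_eq_zero.mp h1'))
      · exact Or.inr (Or.inr (eq_neg_of_add_eq_zero_left h1'))
  by_contra hcon
  have hC : ∀ X Y : K, a * X ^ 3 + b * X ^ 2 * Y + c * X * Y ^ 2 + d * Y ^ 3 +
      h1 * X ^ 2 + h2 * X * Y + h3 * Y ^ 2 + l1 * X + l2 * Y + k = 1 := by
    intro X Y
    rcases hall (-(a * X ^ 3 + b * X ^ 2 * Y + c * X * Y ^ 2 + d * Y ^ 3 +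
      h1 * X ^ 2 + h2 * X * Y + h3 * Y ^ 2 + l1 * X + l2 * Y + k)) with h | h | h
    · exact absurd ⟨X, Y, by rw [h]; exact ⟨0, by ring⟩⟩ hcon
    · exact absurd ⟨X, Y, by rw [h]; exact ⟨1, by ring⟩⟩ hcon
    · exact neg_injective h
  have hb : b = 0 := by
    have e1 := hC 1 1
    have e2 := hC 0 1
    have e3 := hC (-1) 1
    have e4 := hC 1 0
    have e5 := hC 0 0
    have e6 := hC (-1) 0
    have h2b : 2 * b = 0 := by
      linear_combination e1 + e2 + e3 - e4 - e5 - e6 - (c * 0 + d + h3 + l2) * h30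
    linear_combination b * h30 - h2b
  have hc : c = 0 := by
    have e1 := hC 1 1
    have e2 := hC 1 0
    have e3 := hC 1 (-1)
    have e4 := hC 0 1
    have e5 := hC 0 0
    have e6 := hC 0 (-1)
    have h2c : 2 * c = 0 := by
      linear_combination e1 + e2 + e3 - e4 - e5 - e6 - (a + h1 + l1) * h30
    linear_combination c * h30 - h2c
  by_cases ha : a = 0
  · have h := (haniso 1 0 (by rw [ha]; ring)).1
    exact one_ne_zero h
  · have h := (haniso d (-a) (by
      rw [hb, hc]
      have e1 := hpow d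
      have e2 := hpow (-a)
      linear_combination a * e1 + d * e2)).2
    exact ha (neg_eq_zero.mp h)

end Pool.Agent.H757.CS
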